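import Mathlib
import Pool.Agent.H922R2.OPC.Stubs

/-! DEG: the order of the pole of `P` on the first curve (helper880) -/

set_option autoImplicit false

open MvPolynomial

namespace Pool.Agent.H880O

open Pool.Agent.H922R2.OPC

section
variable (k : Type) [Field k]

private noncomputable def τ : B k →ₐ[k] Polynomial k := aeval ![0, Polynomial.X]

private noncomputable def ι : Polynomial k →ₐ[k] B k := Polynomial.aeval (X 1)

variable {k}

private theorem τ_ι (p : Polynomial k) : τ k (ι k p) = p := by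
  have h : (τ k).comp (ι k) = AlgHom.id k (Polynomial k) := by
    apply Polynomial.algHom_ext
    simp [τ, ι]
  exact DFunLike.congr_fun h p

private theorem dec (h : B k) : ∃ s : B k, h = ι k (τ k h) + X 0 * s := by
  induction h using MvPolynomial.induction_on with
  | C c => exact ⟨0, by simp [τ, ι]⟩
  | add p q hp hq =>
    obtain ⟨s, hs⟩ := hp
    obtain ⟨t, ht⟩ := hq
    refine ⟨s + t, ?_⟩
    rw [map_add, map_add]
    linear_combination hs + ht
  | mul_X p i hp =>
    obtain ⟨s, hs⟩ := hp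
    have h0 : τ k (X 0) = 0 := by simp [τ]
    have h1 : τ k (X 1) = Polynomial.X := by simp [τ]
    have h2 : ι k Polynomial.X = X 1 := by simp [ι]
    fin_cases i
    · refine ⟨p, ?_⟩
      show p * X 0 = ι k (τ k (p * X 0)) + X 0 * p
      rw [map_mul, h0, mul_zero, map_zero, zero_add, mul_comm]
    · refine ⟨s * X 1, ?_⟩
      show p * X 1 = ι k (τ k (p * X 1)) + X 0 * (s * X 1)
      rw [map_mul, h1, map_mul, h2]
      linear_combination X 1 * hs

end

theorem deg (k : Type) [Field k] [IsAlgClosed k] [CharZero k] : S_DEG k := by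
  intro D hMON hker
  obtain ⟨a, ha⟩ := hMON D.n₂ D.f₂ D.φ₂ D.ζ₂ D.h₂
  have hF0 : D.F (X 0) = D.P := by simp [TC.F, sb]
  -- the polynomial `g = f₂(0, y)`
  have hg : τ k D.f₂ = Polynomial.X ^ D.n₂ +
      ∑ j ∈ Finset.range D.n₂, Polynomial.C ((a j).eval 0) * Polynomial.X ^ j := by
    rw [ha, map_add, map_pow, map_sum]
    have h0 : τ k (X 0) = 0 := by simp [τ]
    have h1 : τ k (X 1) = Polynomial.X := by simp [τ]
    rw [h1]
    congr 1
    apply Finset.sum_congr rfl
    intro j _
    rw [map_mul, map_pow, h1, ← Polynomial.aeval_algHom_apply, h0]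
    congr 1
    rw [Polynomial.aeval_def, Polynomial.eval₂_at_zero, Polynomial.coeff_zero_eq_eval_zero]
    rfl
  have hdeg : (∑ j ∈ Finset.range D.n₂,
      Polynomial.C ((a j).eval 0) * Polynomial.X ^ j).degree < ((D.n₂ : ℕ) : WithBot ℕ) := by
    rw [← Polynomial.mem_degreeLT]
    apply Submodule.sum_mem
    intro j hj
    rw [Polynomial.mem_degreeLT]
    refine (Polynomial.degree_C_mul_X_pow_le _ _).trans_lt ?_
    exact_mod_cast Finset.mem_range.1 hj
  have hmon : (τ k D.f₂).Monic := by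
    rw [hg]
    exact Polynomial.monic_X_pow_add hdeg
  have hnat : (τ k D.f₂).natDegree = D.n₂ := by
    rw [hg]
    apply Polynomial.natDegree_eq_of_degree_eq_some
    rw [Polynomial.degree_add_eq_left_of_degree_lt, Polynomial.degree_X_pow]
    rw [Polynomial.degree_X_pow]
    exact hdeg
  -- the map
  let I : Ideal (B k) := Ideal.span {D.f₁, D.P}
  let Φ : Polynomial k →ₐ[k] (B k ⧸ I) := ((Ideal.Quotient.mkₐ k I).comp D.F).comp (ι k)
  have hΦ : ∀ p, Φ p = Ideal.Quotient.mk I (D.F (ι k p)) := fun p => rfl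
  have hf1 : D.f₁ ∈ I := Ideal.subset_span (by simp)
  have hP : D.P ∈ I := Ideal.subset_span (by simp)
  have hsurj : Function.Surjective Φ := by
    intro y
    obtain ⟨h, rfl⟩ := Ideal.Quotient.mk_surjective y
    obtain ⟨h', u, hu⟩ := D.hs h
    obtain ⟨s, hs⟩ := dec h'
    refine ⟨τ k h', ?_⟩
    rw [hΦ, Ideal.Quotient.eq]
    have h1 : D.F (ι k (τ k h')) = D.F h' - D.P * D.F s := by
      rw [eq_sub_iff_add_eq, ← hF0, ← map_mul, ← map_add, ← hs]
    have h2 : D.F h' = h - D.f₁ * u := by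
      rw [← hu]
      show _ = h - (h - D.F h')
      ring
    have h3 : D.F (ι k (τ k h')) - h = -(u * D.f₁) - D.F s * D.P := by
      rw [h1, h2]; ring
    rw [h3]
    exact I.sub_mem (I.neg_mem (I.mul_mem_left _ hf1)) (I.mul_mem_left _ hP)
  have hkerΦ : RingHom.ker Φ = Ideal.span {τ k D.f₂} := by
    ext p
    rw [RingHom.mem_ker, hΦ, Ideal.Quotient.eq_zero_iff_mem, Ideal.mem_span_singleton]
    constructor
    · intro h
      obtain ⟨u, v, huv⟩ := Ideal.mem_span_pair.1 h
      obtain ⟨v', w, hw⟩ := D.hs v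
      have h1 : D.f₁ ∣ D.F (ι k p - v' * X 0) := by
        refine ⟨u + w * D.P, ?_⟩
        rw [map_sub, map_mul, hF0, ← huv]
        have h2 : v = D.F v' + D.f₁ * w := by
          rw [← hw]
          show _ = D.F v' + (v - D.F v')
          ring
        rw [h2]; ring
      obtain ⟨q, hq⟩ := hker _ h1
      refine ⟨τ k q, ?_⟩
      have h3 := congrArg (τ k) hq
      rw [map_sub, map_mul, map_mul, τ_ι] at h3
      have h0 : τ k (X 0) = 0 := by simp [τ]
      rw [h0, mul_zero, sub_zero] at h3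
      exact h3
    · rintro ⟨q, rfl⟩
      rw [map_mul, map_mul]
      apply I.mul_mem_right
      obtain ⟨s, hs⟩ := dec D.f₂
      have h1 : D.F (ι k (τ k D.f₂)) = D.F D.f₂ - D.P * D.F s := by
        rw [eq_sub_iff_add_eq, ← hF0, ← map_mul, ← map_add, ← hs]
      rw [h1]
      refine I.sub_mem ?_ (I.mul_mem_right _ hP)
      have h2 : D.F D.f₂ = D.f₁ * D.r := D.hr
      rw [h2]
      exact I.mul_mem_right _ hf1
  let e1 : (Polynomial k ⧸ RingHom.ker Φ) ≃ₐ[k] (B k ⧸ I) :=
    Ideal.quotientKerAlgEquivOfSurjective hsurj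
  let e2 : (Polynomial k ⧸ Ideal.span {τ k D.f₂}) ≃ₐ[k] (Polynomial k ⧸ RingHom.ker Φ) :=
    Ideal.quotientEquivAlgOfEq k hkerΦ.symm
  let e : AdjoinRoot (τ k D.f₂) ≃ₗ[k] (B k ⧸ I) := (e2.trans e1).toLinearEquiv
  have hpb := AdjoinRoot.powerBasis' hmon
  haveI : Module.Finite k (AdjoinRoot (τ k D.f₂)) := (AdjoinRoot.powerBasis' hmon).finite
  refine ⟨Module.Finite.equiv e, ?_⟩
  rw [← LinearEquiv.finrank_eq e, (AdjoinRoot.powerBasis' hmon).finrank,
    AdjoinRoot.powerBasis'_dim, hnat]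

end Pool.Agent.H880O
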